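import Pool.Agent.R796.HCFinal

/-!
# `Cl(G_m^r)` collapses into its `(2^r-1)`-skeleton

Definitions (`Pool.Agent.R796.HCDefs`), following the problem text:
* `digitDist x y`: the number of binary digits in which `x` and `y` differ;
* `hammingGraph m r = G_m^r`; `cliqueComplex G = Cl(G)`;
* `IsComplex`, `skeleton K k`, `ElemCollapse`, `Collapses`: simplicial complexes, the `k`-skeleton,
  elementary collapses and collapses.

The proof: a skew Bollobás theorem for the Hamming distance (if `d(a_i,b_i) ≥ K` and
`d(a_i,b_j) < K` for `i < j`, there are at most `2^K` pairs; group algebra of `(ℤ/2)^K` in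
characteristic two), which bounds the minimal exclusion sequences of the clique complex by `2^r`.
-/

set_option autoImplicit false

namespace Pool.Agent.Results.MP_6ffc1e_gt.CollapsesLow

open Pool.Agent.R796.HC

/-- For all `m` and `r`, the complex `Cl(G_m^r)` collapses to a subcomplex of its
`(2^r-1)`-skeleton. -/
theorem result (m r : ℕ) : ∃ L : Set (Finset (Fin m)), IsComplex L ∧
    L ⊆ skeleton (cliqueComplex (hammingGraph m r)) (2 ^ r - 1) ∧
      Collapses (cliqueComplex (hammingGraph m r)) L :=
  main m r

end Pool.Agent.Results.MP_6ffc1e_gt.CollapsesLow
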