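import Pool.Agent.R796.HCLit

/-!
# The literal form of the question: the full `(2^r-1)`-skeleton

Definitions (`Pool.Agent.R796.HCDefs`), following the problem text. `Cl(G_9^2)` has the maximal
simplex `{0,1,2,4,8}` of dimension `4`, so it cannot collapse to its full `3`-skeleton. (It collapses
to a subcomplex of its `3`-skeleton by `MP_6ffc1e_gt.CollapsesLow`.)
-/

set_option autoImplicit false

namespace Pool.Agent.Results.MP_6ffc1e_gt.LiteralSkeleton

open Pool.Agent.R796.HC

/-- `Cl(G_9^2)` does not collapse to its (full) `(2^2-1)`-skeleton. -/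
theorem result : ¬ Collapses (cliqueComplex (hammingGraph 9 2))
    (skeleton (cliqueComplex (hammingGraph 9 2)) (2 ^ 2 - 1)) :=
  literal

end Pool.Agent.Results.MP_6ffc1e_gt.LiteralSkeleton
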